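import Pool.Agent.Lib_helper45.BDP.MainC

/-!
# MP_30534a_nt: bounded-degree points of a curve on preperiodic hypersurfaces

Full affirmative answer to Q1: for every number field `K`, every `n`, every disintegrated
polynomial `f` over `K`, every irreducible non-vertical curve `C` of `(P^1)^n` over the algebraic
closure of `K` which lies in no preperiodic hypersurface, and every `D`, only finitely many points
of degree at most `D` over `K` of the curve lie on a preperiodic hypersurface.

Nothing is assumed. The proof contains the classification of the periodic hypersurfaces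
(Medvedev and Scanlon, here with a short proof through Laurent series at infinity), a local escape
lemma at every place which bounds the degree of the correspondences that occur, and a uniform
cancellation theorem: for a polynomial `f` over a number field and `D` there is `J` such that
`f^N(a) = f^N(b)` implies `f^J(a) = f^J(b)` for all `N` and all `a, b` of degree at most `D`.
-/

namespace Pool.Agent.Results.MP_30534a_nt.BoundedDegreePoints

open Polynomial

noncomputable section

section Geometry

variable {k : Type*} [Field k] {n : ℕ}

/-- The value of the homogeneous monomial `x^j w^(e-j)` of degree `e` (`j ≤ e`) at the point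
`[z : 1]` or `∞ = [1 : 0]` of the projective line. The projective line is `OnePoint k`. -/
def cval (e j : ℕ) (z : OnePoint k) : k :=
  z.elim (if j = e then 1 else 0) fun x => x ^ j

/-- The value at `P` of the multihomogenization of multidegree `e` of `F` (at the coordinates
`[x : 1]`, `[1 : 0]` of the components of `P`). -/
def mval (e : Fin n → ℕ) (F : MvPolynomial (Fin n) k) (P : Fin n → OnePoint k) : k :=
  ∑ m ∈ F.support, F.coeff m * ∏ i, cval (e i) (m i) (P i)

/-- A hypersurface of `(P^1)^n`: the zero set of a multihomogeneous polynomial `≠ 0` of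
multidegree `≠ 0`. -/
def IsHypersurface (V : Set (Fin n → OnePoint k)) : Prop :=
  ∃ (e : Fin n → ℕ) (F : MvPolynomial (Fin n) k), e ≠ 0 ∧ F ≠ 0 ∧ (∀ i, F.degreeOf i ≤ e i) ∧
    V = {P | mval e F P = 0}

/-- A Zariski closed subset of `(P^1)^n`: the set of common zeros of a family of multihomogeneous
polynomials. -/
def IsZClosed (C : Set (Fin n → OnePoint k)) : Prop :=
  ∃ S : Set ((Fin n → ℕ) × MvPolynomial (Fin n) k), (∀ t ∈ S, ∀ i, t.2.degreeOf i ≤ t.1 i) ∧
    C = {P | ∀ t ∈ S, mval t.1 t.2 P = 0}

/-- An irreducible curve of `(P^1)^n`: an infinite Zariski closed subset all of whose proper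
Zariski closed subsets are finite. -/
def IsIrrCurve (C : Set (Fin n → OnePoint k)) : Prop :=
  IsZClosed C ∧ C.Infinite ∧ ∀ C', IsZClosed C' → C' ⊆ C → C' ≠ C → C'.Finite

/-- The curve maps onto each factor. -/
def NonVertical (C : Set (Fin n → OnePoint k)) : Prop :=
  ∀ i, ∀ z : OnePoint k, ∃ P ∈ C, P i = z

/-- The self-map of the projective line given by a nonconstant polynomial. -/
def pmap (f : k[X]) : OnePoint k → OnePoint k := OnePoint.map fun x => f.eval x

/-- The coordinatewise self-map `(f, ..., f)` of `(P^1)^n`. -/
def phi (f : k[X]) (P : Fin n → OnePoint k) : Fin n → OnePoint k := fun i => pmap f (P i)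

/-- A periodic hypersurface: `phi^m(V) = V` for some `m ≥ 1`. -/
def IsPeriodicHyp (f : k[X]) (V : Set (Fin n → OnePoint k)) : Prop :=
  IsHypersurface V ∧ ∃ m, 1 ≤ m ∧ (phi f)^[m] '' V = V

/-- A preperiodic hypersurface: `phi^m(V)` is periodic for some `m ≥ 0`. -/
def IsPreperiodicHyp (f : k[X]) (V : Set (Fin n → OnePoint k)) : Prop :=
  IsHypersurface V ∧ ∃ m, IsPeriodicHyp f ((phi f)^[m] '' V)

/-- `f` is conjugate to `g` by the linear polynomial `a X + b`, `a ≠ 0`. -/
def IsConj (f g : k[X]) : Prop :=
  ∃ a b : k, a ≠ 0 ∧ f.comp (C a * X + C b) = (C a * X + C b).comp g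

/-- `f` has degree `d ≥ 2` and is not conjugate to `X^d`, `C_d` or `-C_d`, where `C_d` is the
Chebyshev polynomial with `C_d(x + 1/x) = x^d + 1/x^d`. -/
def Disintegrated (f : k[X]) : Prop :=
  2 ≤ f.natDegree ∧ ¬ IsConj f (X ^ f.natDegree) ∧ ¬ IsConj f (Chebyshev.C k f.natDegree) ∧
    ¬ IsConj f (-Chebyshev.C k f.natDegree)

end Geometry

/-- The degree over `K` of the field generated over `K` by the finite coordinates of `P`. -/
def ptDeg (K : Type*) [Field K] {n : ℕ} (P : Fin n → OnePoint (AlgebraicClosure K)) : ℕ :=
  Module.finrank K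
    (IntermediateField.adjoin K {z : AlgebraicClosure K | ∃ i, P i = (z : OnePoint _)})

/-- **Main theorem** (full affirmative answer to Q1). Let `K` be a number field, `f` a polynomial
over `K`, disintegrated over the algebraic closure, `C` an irreducible non-vertical curve of
`(P^1)^n` contained in no preperiodic hypersurface, and `D` a natural number. Then only finitely
many points of `C` of degree at most `D` over `K` lie on a preperiodic hypersurface. -/
theorem result (K : Type*) [Field K] [NumberField K] (n : ℕ) (f : K[X])
    (hf : Disintegrated (f.map (algebraMap K (AlgebraicClosure K))))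
    (C : Set (Fin n → OnePoint (AlgebraicClosure K))) (hC : IsIrrCurve C) (hN : NonVertical C)
    (hV : ∀ V, IsPreperiodicHyp (f.map (algebraMap K (AlgebraicClosure K))) V → ¬ C ⊆ V)
    (D : ℕ) :
    {P | P ∈ C ∧
      (∃ V, IsPreperiodicHyp (f.map (algebraMap K (AlgebraicClosure K))) V ∧ P ∈ V) ∧
      ptDeg K P ≤ D}.Finite := by
  have hf' : Pool.Agent.Lib_helper45.BDP.Disintegrated
      (f.map (algebraMap K (AlgebraicClosure K))) := by
    refine ⟨hf.1, fun h => ?_⟩
    rcases h with h | h | h
    · exact hf.2.1 h
    · exact hf.2.2.1 h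
    · exact hf.2.2.2 h
  exact Pool.Agent.Lib_helper45.BDP.MAIN_proof K f hf' C hC hN hV D

end

end Pool.Agent.Results.MP_30534a_nt.BoundedDegreePoints
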